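import Mathlib
import Pool.Agent.Q304.RG.Main

/-!
# MP_9e8ffd_lc, Q1: the set of sequences with an irrational rotation limit is not Borel

`IrrationalLimit` is the set of all `n : ℕ → ℤ` such that `z ^ n k → 1` for some `z` of modulus one
that is not a root of unity.  It is not Borel in the product topology (the integers discrete), and
every analytic subset of Baire space is its preimage under a continuous map.
-/

set_option autoImplicit false

open Filter Topology MeasureTheory

namespace Pool.Agent.Results.MP_9e8ffd_lc.CompleteAnalytic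

/-- The set `S` of the problem. -/
def IrrationalLimit : Set (ℕ → ℤ) :=
  {n | ∃ z : ℂ, ‖z‖ = 1 ∧ (∀ q : ℕ, 0 < q → z ^ q ≠ 1) ∧ Tendsto (fun k => z ^ n k) atTop (𝓝 1)}

theorem result :
    ¬ MeasurableSet[borel (ℕ → ℤ)] IrrationalLimit ∧
    (∀ A : Set (ℕ → ℕ), AnalyticSet A →
      ∃ f : (ℕ → ℕ) → (ℕ → ℤ), Continuous f ∧ f ⁻¹' IrrationalLimit = A) :=
  ⟨Pool.Agent.Q304.RG.not_borel, Pool.Agent.Q304.RG.hard⟩

end Pool.Agent.Results.MP_9e8ffd_lc.CompleteAnalytic
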